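import Pool.Agent.Work.MP_99322d_an.Defs

/-!
# MP_99322d: why the compact sets have to be invariant

With ALL compact sets `K` of the plane (not only those with `f(K) ⊆ K`) the supremum of the entropies is
infinite for every parameter, because escaping orbits separate doubly exponentially. So the values of
this supremum are not in `[0, log 2]`, and its level sets are empty.
-/

set_option autoImplicit false

namespace Pool.Agent.Work.MP_99322d_an

open Dynamics Filter

namespace Lit

/-- the radius -/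
noncomputable def rad (c b : ℝ) : ℝ := 10 + 4 * |c| + 4 * |b|

/-- the orbit of the point `(x, 0)` -/
noncomputable def P (c b x : ℝ) (k : ℕ) : ℝ × ℝ := (hen c b)^[k] (x, 0)

theorem P_zero (c b x : ℝ) : P c b x 0 = (x, 0) := rfl

theorem P_fst (c b x : ℝ) (k : ℕ) :
    (P c b x (k + 1)).1 = (P c b x k).1 ^ 2 - b * (P c b x k).2 + c := by
  unfold P
  rw [Function.iterate_succ_apply']
  rfl

theorem P_snd (c b x : ℝ) (k : ℕ) : (P c b x (k + 1)).2 = (P c b x k).1 := by
  unfold P
  rw [Function.iterate_succ_apply']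
  rfl

theorem grow (c b x : ℝ) (hx : rad c b ≤ x) (k : ℕ) :
    rad c b * 2 ^ k ≤ (P c b x k).1 ∧ 0 ≤ (P c b x k).2 ∧ (P c b x k).2 ≤ (P c b x k).1 := by
  have hc := abs_nonneg c
  have hb := abs_nonneg b
  have hR : 10 ≤ rad c b := by
    unfold rad
    linarith
  induction k with
  | zero =>
    rw [P_zero]
    refine ⟨?_, le_rfl, ?_⟩
    · simpa using hx
    · show (0 : ℝ) ≤ x
      linarith
  | succ k ih =>
    obtain ⟨h1, h2, h3⟩ := ih
    rw [P_fst, P_snd]
    set u := (P c b x k).1
    set v := (P c b x k).2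
    have hk : (1 : ℝ) ≤ 2 ^ k := one_le_pow₀ (by norm_num)
    have hu : rad c b ≤ u := by
      have : rad c b * 1 ≤ rad c b * 2 ^ k := mul_le_mul_of_nonneg_left hk (by linarith)
      linarith
    have hbv : b * v ≤ |b| * u := by
      calc b * v ≤ |b| * v := mul_le_mul_of_nonneg_right (le_abs_self b) h2
        _ ≤ |b| * u := mul_le_mul_of_nonneg_left h3 hb
    have hcc : -|c| ≤ c := neg_abs_le c
    have hu1 : 1 ≤ u := by linarith
    have hmul : rad c b * u ≤ u ^ 2 := by
      rw [pow_two]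
      exact mul_le_mul_of_nonneg_right hu (by linarith)
    have hexp : rad c b * u = 10 * u + 4 * (|c| * u) + 4 * (|b| * u) := by
      unfold rad
      ring
    have hcu : |c| * 1 ≤ |c| * u := mul_le_mul_of_nonneg_left hu1 hc
    have hbu : 0 ≤ |b| * u := mul_nonneg hb (by linarith)
    have hmain : 2 * u ≤ u ^ 2 - b * v + c := by nlinarith
    refine ⟨?_, by linarith, by linarith⟩
    rw [pow_succ]
    linarith

theorem sep (c b x y : ℝ) (hx : rad c b ≤ x) (hxy : x ≤ y) (k : ℕ) :
    2 ^ (∑ i ∈ Finset.range k, i) * (y - x) ≤ (P c b y k).1 - (P c b x k).1 ∧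
      0 ≤ (P c b y k).2 - (P c b x k).2 ∧
      (P c b y k).2 - (P c b x k).2 ≤ (P c b y k).1 - (P c b x k).1 := by
  have hc := abs_nonneg c
  have hb := abs_nonneg b
  have hR : 10 ≤ rad c b := by
    unfold rad
    linarith
  induction k with
  | zero =>
    rw [P_zero, P_zero]
    simp [hxy]
  | succ k ih =>
    obtain ⟨h1, h2, h3⟩ := ih
    obtain ⟨gx, -, -⟩ := grow c b x hx k
    obtain ⟨gy, -, -⟩ := grow c b y (hx.trans hxy) k
    rw [P_fst, P_fst, P_snd, P_snd]
    set u := (P c b x k).1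
    set v := (P c b x k).2
    set u' := (P c b y k).1
    set v' := (P c b y k).2
    have hk : (1 : ℝ) ≤ 2 ^ k := one_le_pow₀ (by norm_num)
    have hk' : rad c b * 1 ≤ rad c b * 2 ^ k := mul_le_mul_of_nonneg_left hk (by linarith)
    have hD : 0 ≤ u' - u := h2.trans h3
    have hbE : b * (v' - v) ≤ |b| * (u' - u) := by
      calc b * (v' - v) ≤ |b| * (v' - v) := mul_le_mul_of_nonneg_right (le_abs_self b) h2
        _ ≤ |b| * (u' - u) := mul_le_mul_of_nonneg_left h3 hb
    have hbu : |b| ≤ u' := by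
      have : |b| ≤ rad c b := by
        unfold rad
        linarith
      linarith
    have hE : |b| * (u' - u) ≤ u' * (u' - u) := mul_le_mul_of_nonneg_right hbu hD
    have h2u : (2 : ℝ) ^ k ≤ u := by
      have : 1 * (2 : ℝ) ^ k ≤ rad c b * 2 ^ k :=
        mul_le_mul_of_nonneg_right (by linarith) (by positivity)
      linarith
    have hmain : u * (u' - u) ≤ (u' ^ 2 - b * v' + c) - (u ^ 2 - b * v + c) := by nlinarith
    have h2D : 2 ^ k * (u' - u) ≤ u * (u' - u) := mul_le_mul_of_nonneg_right h2u hD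
    have h1D : 1 * (u' - u) ≤ 2 ^ k * (u' - u) := mul_le_mul_of_nonneg_right hk hD
    refine ⟨?_, hD, by linarith⟩
    rw [Finset.sum_range_succ, pow_add]
    have h4 : 2 ^ k * (2 ^ (∑ i ∈ Finset.range k, i) * (y - x)) ≤ 2 ^ k * (u' - u) :=
      mul_le_mul_of_nonneg_left h1 (by positivity)
    calc 2 ^ (∑ i ∈ Finset.range k, i) * 2 ^ k * (y - x)
        = 2 ^ k * (2 ^ (∑ i ∈ Finset.range k, i) * (y - x)) := by ring
      _ ≤ 2 ^ k * (u' - u) := h4
      _ ≤ (u' ^ 2 - b * v' + c) - (u ^ 2 - b * v + c) := by linarith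

/-- the segment -/
def seg (c b : ℝ) : Set (ℝ × ℝ) := Set.Icc (rad c b) (rad c b + 1) ×ˢ {0}

theorem seg_compact (c b : ℝ) : IsCompact (seg c b) := isCompact_Icc.prod isCompact_singleton

/-- the entourage -/
def ent : SetRel (ℝ × ℝ) (ℝ × ℝ) := {p | dist p.1 p.2 < 1}

theorem ent_mem : ent ∈ uniformity (ℝ × ℝ) := Metric.dist_mem_uniformity one_pos

/-- the point with number `j` -/
noncomputable def pt (c b : ℝ) (N j : ℕ) : ℝ × ℝ := (rad c b + j / N, 0)

theorem far (c b : ℝ) (N k : ℕ) (hN : 0 < N)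
    (hNk : 2 * (N : ℝ) ≤ 2 ^ (∑ i ∈ Finset.range k, i)) (i j : ℕ) (hij : i < j) :
    2 ≤ dist ((hen c b)^[k] (pt c b N i)) ((hen c b)^[k] (pt c b N j)) := by
  have hN' : (0 : ℝ) < N := by exact_mod_cast hN
  have hle : rad c b + i / N ≤ rad c b + j / N := by
    have : (i : ℝ) / N ≤ j / N := div_le_div_of_nonneg_right (by exact_mod_cast hij.le) hN'.le
    linarith
  have hi : rad c b ≤ rad c b + i / N := by
    have : (0 : ℝ) ≤ i / N := by positivity
    linarith
  have hs := (sep c b (rad c b + i / N) (rad c b + j / N) hi hle k).1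
  have hd : 1 / (N : ℝ) ≤ (rad c b + j / N) - (rad c b + i / N) := by
    have h1 : (i : ℝ) + 1 ≤ j := by exact_mod_cast hij
    have h2 : ((i : ℝ) + 1) / N ≤ j / N := div_le_div_of_nonneg_right h1 hN'.le
    rw [add_div] at h2
    linarith
  have h3 : 2 ≤ 2 ^ (∑ i ∈ Finset.range k, i) *
      ((rad c b + j / N) - (rad c b + (i : ℝ) / N)) := by
    calc (2 : ℝ) = 2 * N * (1 / N) := by
          field_simp
      _ ≤ 2 ^ (∑ i ∈ Finset.range k, i) * (1 / N) :=
          mul_le_mul_of_nonneg_right hNk (by positivity)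
      _ ≤ _ := mul_le_mul_of_nonneg_left hd (by positivity)
  have h4 : 2 ≤ (P c b (rad c b + j / N) k).1 - (P c b (rad c b + i / N) k).1 := h3.trans hs
  have h5 : dist (P c b (rad c b + i / N) k).1 (P c b (rad c b + j / N) k).1 ≤
      dist (P c b (rad c b + i / N) k) (P c b (rad c b + j / N) k) := by
    rw [Prod.dist_eq]
    exact le_max_left _ _
  have h6 : 2 ≤ dist (P c b (rad c b + i / N) k).1 (P c b (rad c b + j / N) k).1 := by
    rw [dist_comm, Real.dist_eq]
    exact h4.trans (le_abs_self _)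
  exact h6.trans h5

theorem card_net (c b : ℝ) (N k : ℕ) (hN : 0 < N)
    (hNk : 2 * (N : ℝ) ≤ 2 ^ (∑ i ∈ Finset.range k, i)) :
    (N : ℕ∞) ≤ netMaxcard (hen c b) (seg c b) ent (k + 1) := by
  classical
  have hN' : (0 : ℝ) < N := by exact_mod_cast hN
  have hfar : ∀ i j : ℕ, i ≠ j →
      2 ≤ dist ((hen c b)^[k] (pt c b N i)) ((hen c b)^[k] (pt c b N j)) := by
    intro i j hij
    rcases lt_or_gt_of_ne hij with h | h
    · exact far c b N k hN hNk i j h
    · rw [dist_comm]
      exact far c b N k hN hNk j i h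
  have hinj : Function.Injective (pt c b N) := by
    intro i j h
    by_contra hne
    have := hfar i j hne
    rw [h, dist_self] at this
    linarith
  have hnet : IsDynNetIn (hen c b) (seg c b) ent (k + 1)
      ((Finset.range N).image (pt c b N) : Finset (ℝ × ℝ)) := by
    constructor
    · intro p hp
      rw [Finset.mem_coe, Finset.mem_image] at hp
      obtain ⟨j, hj, rfl⟩ := hp
      have hj' : (j : ℝ) ≤ N := by exact_mod_cast (Finset.mem_range.1 hj).le
      have h1 : (j : ℝ) / N ≤ 1 := (div_le_one hN').2 hj'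
      have h0 : (0 : ℝ) ≤ j / N := by positivity
      exact ⟨⟨by show rad c b ≤ rad c b + j / N; linarith,
        by show rad c b + j / N ≤ rad c b + 1; linarith⟩, rfl⟩
    · intro p hp q hq hpq
      rw [Finset.mem_coe, Finset.mem_image] at hp hq
      obtain ⟨i, hi, rfl⟩ := hp
      obtain ⟨j, hj, rfl⟩ := hq
      have hij : i ≠ j := fun h => hpq (by rw [h])
      show Disjoint _ _
      rw [Set.disjoint_left]
      intro z hz hz'
      have h1 := mem_ball_dynEntourage.1 hz k (Nat.lt_succ_self k)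
      have h2 := mem_ball_dynEntourage.1 hz' k (Nat.lt_succ_self k)
      have h1' : dist ((hen c b)^[k] (pt c b N i)) ((hen c b)^[k] z) < 1 := h1
      have h2' : dist ((hen c b)^[k] (pt c b N j)) ((hen c b)^[k] z) < 1 := h2
      have h3 := hfar i j hij
      have h4 := dist_triangle_right ((hen c b)^[k] (pt c b N i)) ((hen c b)^[k] (pt c b N j))
        ((hen c b)^[k] z)
      linarith
  have h := hnet.card_le_netMaxcard
  rw [Finset.card_image_of_injective _ hinj, Finset.card_range] at h
  exact h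

theorem exponent (M k : ℕ) (hk : 2 * M + 4 ≤ k) :
    M * (k + 1) + 1 ≤ ∑ i ∈ Finset.range k, i := by
  have h := Finset.sum_range_id_mul_two k
  obtain ⟨l, rfl⟩ := Nat.exists_eq_add_of_le hk
  have h' : (∑ i ∈ Finset.range (2 * M + 4 + l), i) * 2 =
      (2 * M + 4 + l) * (2 * M + 3 + l) := by
    have e : 2 * M + 4 + l - 1 = 2 * M + 3 + l := by omega
    rw [h, e]
  nlinarith [Nat.zero_le M, Nat.zero_le l, Nat.zero_le (M * l), Nat.zero_le (l * l),
    Nat.zero_le (M * M)]

theorem seg_top (c b : ℝ) : coverEntropy (hen c b) (seg c b) = ⊤ := by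
  have key : ∀ M : ℕ, ENNReal.log ((2 : ENNReal) ^ M) ≤ coverEntropy (hen c b) (seg c b) := by
    intro M
    refine le_trans ?_ (netEntropyEntourage_le_coverEntropy (T := hen c b) (F := seg c b) ent_mem)
    unfold netEntropyEntourage
    rw [← ExpGrowth.expGrowthSup_pow]
    apply ExpGrowth.expGrowthSup_eventually_monotone
    filter_upwards [eventually_ge_atTop (2 * M + 5)] with n hn
    obtain ⟨k, rfl⟩ : ∃ k, n = k + 1 := ⟨n - 1, by omega⟩
    have he := exponent M k (by omega)
    have h1 := card_net c b (2 ^ (M * (k + 1))) k (by positivity) (by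
      push_cast
      calc (2 : ℝ) * 2 ^ (M * (k + 1)) = 2 ^ (M * (k + 1) + 1) := by ring
        _ ≤ 2 ^ (∑ i ∈ Finset.range k, i) := pow_le_pow_right₀ (by norm_num) he)
    have h2 := ENat.toENNReal_mono h1
    refine le_trans (le_of_eq ?_) h2
    rw [← pow_mul]
    push_cast
    rfl
  rw [EReal.eq_top_iff_forall_lt]
  intro y
  obtain ⟨M, hM⟩ := exists_nat_gt (y / Real.log 2)
  have hlog : (0 : ℝ) < Real.log 2 := Real.log_pos (by norm_num)
  have h1 : y < M * Real.log 2 := (div_lt_iff₀ hlog).1 hM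
  have h2 : ENNReal.log ((2 : ENNReal) ^ M) = ((M * Real.log 2 : ℝ) : EReal) := by
    rw [← ENNReal.ofReal_ofNat, ← ENNReal.ofReal_pow (by norm_num),
      ENNReal.log_ofReal_of_pos (by positivity), Real.log_pow]
  refine lt_of_lt_of_le ?_ (key M)
  rw [h2]
  exact_mod_cast h1

end Lit

/-- With all compact sets `K` the supremum of the entropies is infinite for every parameter. -/
theorem literal_entropy (c b : ℝ) :
    (⨆ (K : Set (ℝ × ℝ)) (_ : IsCompact K), coverEntropy (hen c b) K) = (⊤ : EReal) := by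
  rw [eq_top_iff, ← Lit.seg_top c b]
  exact le_iSup₂ (f := fun (K : Set (ℝ × ℝ)) (_ : IsCompact K) => coverEntropy (hen c b) K)
    (Lit.seg c b) (Lit.seg_compact c b)

/-- Hence its level sets are empty. -/
theorem literal_level_empty (α : ℝ) :
    {p : ℝ × ℝ | (⨆ (K : Set (ℝ × ℝ)) (_ : IsCompact K), coverEntropy (hen p.1 p.2) K) =
      (α : EReal)} = ∅ := by
  ext p
  simp only [Set.mem_ofPred_eq, Set.mem_empty_iff_false, iff_false]
  rw [literal_entropy]
  exact (EReal.coe_ne_top α).symm

end Pool.Agent.Work.MP_99322d_an
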