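import Mathlib

/-!
# MP_99322d: the two common numbers `L0q < L1q`

Author: helper81.  Both are `L0 (1 + ε)`, where `L0 = 1.9193063849947195111…` is the spectral radius of
the base graph, `ε = 1 / 10 ^ 82` for the upper bound at `P0` and `ε = 1 / 10 ^ 81` for the lower
bound on the four sides (the smallest gain of a side is at least `5 / 10 ^ 80`).
-/

set_option autoImplicit false

namespace Pool.Agent.Work.MP_99322d_an

/-- the common denominator -/
def wD : ℕ := 10 ^ 94

/-- numerator for the upper bound at `P0` -/
def LN : ℕ := 19193063849947195111150772102902974140847848626150881580173858828636960392304948261390315855209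

/-- numerator for the lower bound on the sides -/
def lamN : ℕ := 19193063849947195111150772102902974140847848626150881580173858828636960392304948278664073320161

/-- the number of the upper bound: `h P0 ≤ log L0q` -/
noncomputable def L0q : ℝ := (LN : ℝ) / (wD : ℝ)

/-- the number of the lower bound: `log L1q ≤ h` on the four sides -/
noncomputable def L1q : ℝ := (lamN : ℝ) / (wD : ℝ)

theorem wD_pos : (0 : ℝ) < (wD : ℝ) := by
  have : 0 < wD := by decide +kernel
  exact_mod_cast this

theorem L0q_pos : 0 < L0q := by
  have : 0 < LN := by decide +kernel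
  exact div_pos (by exact_mod_cast this) wD_pos

theorem L0q_lt_L1q : L0q < L1q := by
  have : LN < lamN := by decide +kernel
  exact div_lt_div_of_pos_right (by exact_mod_cast this) wD_pos

theorem L1q_pos : 0 < L1q := L0q_pos.trans L0q_lt_L1q

theorem L1q_lt_two : L1q < 2 := by
  have : lamN < 2 * wD := by decide +kernel
  rw [L1q, div_lt_iff₀ wD_pos]
  exact_mod_cast this

theorem L0q_le_two : L0q ≤ 2 := (L0q_lt_L1q.trans L1q_lt_two).le

theorem one_lt_L0q : 1 < L0q := by
  have : wD < LN := by decide +kernel
  rw [L0q, lt_div_iff₀ wD_pos, one_mul]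
  exact_mod_cast this

theorem log_L0q_lt : Real.log L0q < Real.log L1q := Real.log_lt_log L0q_pos L0q_lt_L1q

/-- The sum of the weights of a list of vertices. -/
def wsum (w : Array ℕ) (s : List ℕ) : ℕ := s.foldl (fun acc i => acc + w.getD i 0) 0

/-- The check of the upper weights: `∑ a_w ≤ (LN / wD) a_v`, `a_v ≥ 1`. -/
def upOK (succ : Array (List ℕ)) (a : Array ℕ) : Bool :=
  (List.range succ.size).all fun v =>
    decide (wsum a (succ.getD v []) * wD ≤ LN * a.getD v 0) && decide (1 ≤ a.getD v 0)

/-- The check of the lower weights: `(lamN / wD) w_v ≤ ∑ w_w`. -/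
def lowOK (succ : Array (List ℕ)) (w : Array ℕ) : Bool :=
  (List.range succ.size).all fun v => decide (lamN * w.getD v 0 ≤ wsum w (succ.getD v []) * wD)

end Pool.Agent.Work.MP_99322d_an
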