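import Mathlib

/-!
# MP_99322d: definitions (decided by the lead, all parts use these)
-/

set_option autoImplicit false

namespace Pool.Agent.Work.MP_99322d_an

/-- The real Henon map `f_{c,b}(x,y) = (x² - b y + c, x)`. -/
def hen (c b : ℝ) (p : ℝ × ℝ) : ℝ × ℝ := (p.1 ^ 2 - b * p.2 + c, p.1)

/-- The topological entropy of the real Henon map: the supremum over the compact sets `K` with
`f(K) ⊆ K` of the entropy of `f` on `K` (Mathlib's `Dynamics.coverEntropy`, the definition of Bowen and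
Dinaburg). -/
noncomputable def h (c b : ℝ) : EReal :=
  ⨆ (K : Set (ℝ × ℝ)) (_ : IsCompact K ∧ hen c b '' K ⊆ K), Dynamics.coverEntropy (hen c b) K

theorem continuous_hen (c b : ℝ) : Continuous (hen c b) := by
  unfold hen
  fun_prop

theorem le_h (c b : ℝ) (K : Set (ℝ × ℝ)) (hK : IsCompact K) (hfK : Set.MapsTo (hen c b) K K) :
    Dynamics.coverEntropy (hen c b) K ≤ h c b :=
  le_iSup₂ (f := fun (K : Set (ℝ × ℝ)) (_ : IsCompact K ∧ hen c b '' K ⊆ K) =>
    Dynamics.coverEntropy (hen c b) K) K ⟨hK, hfK.image_subset⟩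

theorem h_le (c b : ℝ) (α : EReal)
    (H : ∀ K : Set (ℝ × ℝ), IsCompact K → Set.MapsTo (hen c b) K K →
      Dynamics.coverEntropy (hen c b) K ≤ α) : h c b ≤ α :=
  iSup₂_le fun K hK => H K hK.1 (Set.mapsTo_iff_image_subset.2 hK.2)

end Pool.Agent.Work.MP_99322d_an
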