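import Pool.Agent.Work.MP_99322d_an.Defs

/-!
# MP_99322d: the parallelogram and the point `P0` (integers at scale `2^96`), captain's file

Pair (20,18): words (m = minus, p = plus) `A = mpppmmppmpppmpppmmp`, `B = mpppmmppmpppmpppm`.
`P0` = both return maps have trace 0.  The parallelogram is `a_A, a_B ∈ [-1, 0.24]`:
corner `K` is `(a_A, a_B) = (-1,-1)`, `u` moves `a_A` from `-1` to `0.24` (`a_B` fixed),
`v` moves `a_B` from `-1` to `0.24` (`a_A` fixed).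

The four sides:
side `A0` : `g1 = 0`, from `K` to `K + v`          (`a_A = -1`);
side `A1` : `g1 = 1`, from `K + u` to `K + u + v`  (`a_A = .24`);
side `B0` : `g2 = 0`, from `K` to `K + u`          (`a_B = -1`);
side `B1` : `g2 = 1`, from `K + v` to `K + u + v`  (`a_B = .24`).
-/

set_option autoImplicit false

namespace Pool.Agent.Work.MP_99322d_an

/-- the scale -/
def scale : ℤ := 2 ^ 96

/-- the corner `K = (Kc, Kb) / 2^96` -/
def Kc : ℤ := -157020230998622551635529159504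
def Kb : ℤ := 170461439397116929655534
/-- the edge `u = (uc, ub) / 2^96` -/
def uc : ℤ := 464331445196130320
def ub : ℤ := -233838043473987376
/-- the edge `v = (vc, vb) / 2^96` -/
def vc : ℤ := 219221772647675328
def vb : ℤ := 96830899211692112
/-- the point `P0 = (Pc, Pb) / 2^96` -/
def Pc : ℤ := -157020230998071299040493832371
def Pb : ℤ := 170461328907484460062575

/-- the determinant of `u, v` (in integers) -/
def detUV : ℤ := uc * vb - ub * vc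

/-- first barycentric coordinate of the parallelogram -/
noncomputable def g1 (p : ℝ × ℝ) : ℝ :=
  ((p.1 * 2 ^ 96 - (Kc : ℝ)) * (vb : ℝ) - (p.2 * 2 ^ 96 - (Kb : ℝ)) * (vc : ℝ)) / (detUV : ℝ)

/-- second barycentric coordinate of the parallelogram -/
noncomputable def g2 (p : ℝ × ℝ) : ℝ :=
  ((uc : ℝ) * (p.2 * 2 ^ 96 - (Kb : ℝ)) - (ub : ℝ) * (p.1 * 2 ^ 96 - (Kc : ℝ))) / (detUV : ℝ)

/-- the point `P0` -/
noncomputable def P0 : ℝ × ℝ := ((Pc : ℝ) / 2 ^ 96, (Pb : ℝ) / 2 ^ 96)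

/-- the mirror point `P1 = (c/b², 1/b)` of `P0` -/
noncomputable def P1 : ℝ × ℝ := (P0.1 / P0.2 ^ 2, 1 / P0.2)

theorem detUV_pos : (0 : ℝ) < (detUV : ℝ) := by
  have : (0 : ℤ) < detUV := by decide +kernel
  exact_mod_cast this

theorem continuous_g1 : Continuous g1 := by unfold g1; fun_prop

theorem continuous_g2 : Continuous g2 := by unfold g2; fun_prop

theorem detUV_eq : (detUV : ℝ) = (uc : ℝ) * (vb : ℝ) - (ub : ℝ) * (vc : ℝ) := by
  unfold detUV; push_cast; ring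

theorem g1_mul (p : ℝ × ℝ) : g1 p * (detUV : ℝ) =
    (p.1 * 2 ^ 96 - (Kc : ℝ)) * (vb : ℝ) - (p.2 * 2 ^ 96 - (Kb : ℝ)) * (vc : ℝ) :=
  div_mul_cancel₀ _ detUV_pos.ne'

theorem g2_mul (p : ℝ × ℝ) : g2 p * (detUV : ℝ) =
    (uc : ℝ) * (p.2 * 2 ^ 96 - (Kb : ℝ)) - (ub : ℝ) * (p.1 * 2 ^ 96 - (Kc : ℝ)) :=
  div_mul_cancel₀ _ detUV_pos.ne'

/-- every parameter is `K + g1 u + g2 v` -/
theorem fst_eq (p : ℝ × ℝ) :
    p.1 = ((Kc : ℝ) + g1 p * (uc : ℝ) + g2 p * (vc : ℝ)) / 2 ^ 96 := by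
  rw [eq_div_iff (by positivity)]
  apply mul_right_cancel₀ detUV_pos.ne'
  have e1 := g1_mul p
  have e2 := g2_mul p
  have e3 := detUV_eq
  linear_combination (p.1 * 2 ^ 96 - (Kc : ℝ)) * e3 - (uc : ℝ) * e1 - (vc : ℝ) * e2

theorem snd_eq (p : ℝ × ℝ) :
    p.2 = ((Kb : ℝ) + g1 p * (ub : ℝ) + g2 p * (vb : ℝ)) / 2 ^ 96 := by
  rw [eq_div_iff (by positivity)]
  apply mul_right_cancel₀ detUV_pos.ne'
  have e1 := g1_mul p
  have e2 := g2_mul p
  have e3 := detUV_eq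
  linear_combination (p.2 * 2 ^ 96 - (Kb : ℝ)) * e3 - (ub : ℝ) * e1 - (vb : ℝ) * e2

/-- `P0` is strictly inside -/
theorem P0_inside : 0 < g1 P0 ∧ g1 P0 < 1 ∧ 0 < g2 P0 ∧ g2 P0 < 1 := by
  have hd := detUV_pos
  unfold g1 g2 P0
  refine ⟨?_, ?_, ?_, ?_⟩
  · apply div_pos _ hd
    norm_num [Kc, Kb, uc, ub, vc, vb, Pc, Pb, detUV]
  · rw [div_lt_one hd]
    norm_num [Kc, Kb, uc, ub, vc, vb, Pc, Pb, detUV]
  · apply div_pos _ hd
    norm_num [Kc, Kb, uc, ub, vc, vb, Pc, Pb, detUV]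
  · rw [div_lt_one hd]
    norm_num [Kc, Kb, uc, ub, vc, vb, Pc, Pb, detUV]

/-- the mirror point is outside -/
theorem P1_outside : ¬ (0 ≤ g1 P1 ∧ g1 P1 ≤ 1 ∧ 0 ≤ g2 P1 ∧ g2 P1 ≤ 1) := by
  intro hcon
  have h2 := snd_eq P1
  have hP : P1.2 = 1 / ((Pb : ℝ) / 2 ^ 96) := rfl
  have hbig : (1000 : ℝ) ≤ P1.2 := by
    rw [hP]; norm_num [Pb]
  have e1 : g1 P1 * (ub : ℝ) ≤ 0 := by
    have : (ub : ℝ) ≤ 0 := by norm_num [ub]
    exact mul_nonpos_of_nonneg_of_nonpos hcon.1 this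
  have e2 : g2 P1 * (vb : ℝ) ≤ (vb : ℝ) := by
    have : (0 : ℝ) ≤ (vb : ℝ) := by norm_num [vb]
    nlinarith [hcon.2.2.2]
  have h3 : P1.2 ≤ ((Kb : ℝ) + 0 + (vb : ℝ)) / 2 ^ 96 := by
    rw [h2]
    apply div_le_div_of_nonneg_right _ (by positivity)
    linarith
  have h4 : ((Kb : ℝ) + 0 + (vb : ℝ)) / 2 ^ 96 < 1 := by
    norm_num [Kb, vb]
  linarith

theorem P0_b_pos : 0 < P0.2 := by
  unfold P0; norm_num [Pb]

end Pool.Agent.Work.MP_99322d_an
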